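import Pool.Agent.W2helper23.SG.Stm

/-!
# Piece SG6: induction from a quadratic subfield as induction from the kernel of a sign character
-/

set_option autoImplicit false
set_option linter.unusedSectionVars false

namespace Pool.Agent.W2helper98.SG

open NumberField NumberField.ComplexEmbedding Pool.Agent.R389 Pool.Agent.K4H74.ST
open Pool.Agent.W2helper23.SG

theorem SG6 : P_SG6 := by
  classical
  intro F E N _ _ _ _ _ _ _ _ _ _ _ s t hQ
  obtain ⟨-, -, hQ⟩ := hQ
  have hmem : ∀ h : N ≃ₐ[E] N, h.restrictScalars F ∈ s.ker := fun h =>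
    (MonoidHom.mem_ker).2 ((hQ _).2 ⟨h, rfl⟩)
  let f : (N ≃ₐ[E] N) →* s.ker :=
    { toFun := fun h => ⟨h.restrictScalars F, hmem h⟩
      map_one' := by
        apply Subtype.ext
        ext x
        rfl
      map_mul' := by
        intro a b
        apply Subtype.ext
        ext x
        rfl }
  have hf : Function.Bijective f := by
    constructor
    · intro a b hab
      have h1 : a.restrictScalars F = b.restrictScalars F := congrArg Subtype.val hab
      ext x
      have h2 := AlgEquiv.congr_fun h1 x
      exact h2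
    · intro g
      obtain ⟨h, hh⟩ := (hQ g).1 ((MonoidHom.mem_ker).1 g.2)
      exact ⟨h, Subtype.ext hh⟩
  let e : (N ≃ₐ[E] N) ≃* s.ker := MulEquiv.ofBijective f hf
  have he : ∀ h : s.ker, (e.symm h).restrictScalars F = (h : N ≃ₐ[F] N) := by
    intro h
    have h1 : e (e.symm h) = h := e.apply_symm_apply h
    exact congrArg Subtype.val h1
  refine ⟨e.symm, he, ?_⟩
  intro χ
  have hc : Nat.card s.ker = Nat.card (N ≃ₐ[E] N) := Nat.card_congr e.symm.toEquiv
  funext g
  rw [ind, indChar, hc]
  congr 1
  refine finsum_congr fun x => ?_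
  by_cases hx : x⁻¹ * g * x ∈ s.ker
  · rw [ext_mem _ _ hx]
    rw [finsum_eq_single _ (e.symm ⟨_, hx⟩)]
    · rw [finsum_eq_single _ (he ⟨_, hx⟩)]
      intro h1 h2
      exact absurd rfl h2
    · intro h hh
      refine @finsum_of_isEmpty _ _ _ ⟨fun h1 => ?_⟩ _
      apply hh
      apply e.injective
      rw [MulEquiv.apply_symm_apply]
      exact Subtype.ext h1
  · rw [ext_not _ _ hx]
    apply finsum_eq_zero_of_forall_eq_zero
    intro h
    refine @finsum_of_isEmpty _ _ _ ⟨fun h1 => ?_⟩ _
    apply hx
    rw [← h1]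
    exact hmem h

end Pool.Agent.W2helper98.SG
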