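import Pool.Agent.W2helper37.SG.Stm
import Pool.Agent.W457.T4

/-!
# Project SG: an operator is nilpotent if the traces of its powers vanish
-/

set_option autoImplicit false

universe u v w

namespace Pool.Agent.W2helper98.SG

theorem p_nil : Pool.Agent.W2helper37.SG.P_NIL.{w} := by
  intro K _ _ Q _ _ _ N h
  exact Pool.Agent.W457.isNilpotent_of_trace_pow N h

end Pool.Agent.W2helper98.SG
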