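import Pool.Agent.W2helper37.SG.Stm3

/-!
# Project SG, part 2: the two parts of the odd Casimir element of `osp` add up to zero
-/

set_option autoImplicit false

universe v u w

namespace Pool.Agent.W2helper98.SG

open Pool.Agent.W2helper37.SG

section

variable {K : Type w} [Field K] {ι : Type} [Fintype ι] [DecidableEq ι]
  {o : ι → Bool} {σ : ι → ι} {γ : ι → K} {N : ι → ℤ} {Q : Type w} [AddCommGroup Q] [Module K Q]
  {A : ι → ι → Module.End K Q}

omit [Fintype ι] in
theorem diag_neg (h : FormIdx o σ γ N) (hA : OspRel o σ γ A) (i : ι) :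
    A (σ i) (σ i) = -A i i := by
  have h1 := hA.anti i i
  rw [tauA] at h1
  have h2 : cc K (o i) (o i) * γ i * (γ (σ i))⁻¹ = 1 := by
    rw [h.sym i]
    have h3 := h.ne i
    cases o i
    · simp only [cc, sg, Bool.and_self, Bool.false_eq_true, if_false, one_mul]
      exact mul_inv_cancel₀ h3
    · simp only [cc, sg, Bool.and_self, if_true, neg_mul, one_mul, inv_neg, mul_neg, neg_neg]
      exact mul_inv_cancel₀ h3
  rw [h2, one_smul] at h1
  exact h1

theorem diag_sum [CharZero K] (h : FormIdx o σ γ N) (hA : OspRel o σ γ A) (b : Bool) :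
    ∑ i with o i = b, A i i = 0 := by
  have h1 : ∑ i with o i = b, A i i = ∑ i with o i = b, A (σ i) (σ i) := by
    refine Finset.sum_nbij' σ σ ?_ ?_ ?_ ?_ ?_
    · intro i hi
      rw [Finset.mem_filter] at hi ⊢
      exact ⟨Finset.mem_univ _, by rw [h.par, hi.2]⟩
    · intro i hi
      rw [Finset.mem_filter] at hi ⊢
      exact ⟨Finset.mem_univ _, by rw [h.par, hi.2]⟩
    · exact fun i _ => h.inv i
    · exact fun i _ => h.inv i
    · intro i _
      rw [h.inv i]
  have h2 : ∑ i with o i = b, A (σ i) (σ i) = -∑ i with o i = b, A i i := by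
    rw [← Finset.sum_neg_distrib]
    exact Finset.sum_congr rfl fun i _ => diag_neg h hA i
  rw [h2] at h1
  have h3 : (2 : K) • ∑ i with o i = b, A i i = 0 := by
    rw [two_smul]
    exact add_eq_zero_iff_eq_neg.mpr h1
  exact (smul_eq_zero.mp h3).resolve_left two_ne_zero

omit [Fintype ι] in
theorem pair_sum (h : FormIdx o σ γ N) (hA : OspRel o σ γ A) {a b : ι} (ha : o a = false)
    (hb : o b = true) : A a b * A b a + A b a * A a b = A a a - A b b := by
  have h1 := hA.rel a b b a
  have h2 : a ≠ σ b := by
    intro hab
    have h3 := h.par b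
    rw [← hab, ha, hb] at h3
    exact absurd h3 (by decide)
  have h3 : b ≠ σ a := by
    intro hab
    have h3 := h.par a
    rw [← hab, ha, hb] at h3
    exact absurd h3 (by decide)
  rw [if_pos rfl, if_pos rfl, if_neg h2, if_neg h3, ha, hb] at h1
  simp only [cc, Bool.and_self, Bool.and_true, Bool.and_false, if_true,
    Bool.false_eq_true, if_false, mul_one, one_smul, neg_smul] at h1
  have h4 : -(A a b * A b a + A b a * A a b) = A b b - A a a := by
    rw [sub_zero, add_zero] at h1
    rw [← h1]
    abel
  rw [← neg_sub, ← h4, neg_neg]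

end

theorem p_oxx : P_OXX.{w} := by
  intro K _ _ ι _ _ o σ γ N h Q _ _ A hA
  have h1 : XX o A true = ∑ k with o k = false, ∑ i with o i ≠ false, A i k * A k i := by
    rw [XX, Finset.sum_comm' (t' := Finset.univ.filter fun k => o k = false)
      (s' := fun _ => Finset.univ.filter fun i => o i ≠ false)]
    intro x y
    simp only [Finset.mem_filter, Finset.mem_univ, true_and]
    cases o x <;> cases o y <;> simp
  rw [h1, XX, ← Finset.sum_add_distrib]
  have h2 : ∀ k ∈ Finset.univ.filter (fun k => o k = false),
      (∑ i with o i ≠ false, A k i * A i k) + ∑ i with o i ≠ false, A i k * A k i =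
        (num o true : K) • A k k := by
    intro k hk
    have hk' : o k = false := (Finset.mem_filter.mp hk).2
    rw [← Finset.sum_add_distrib]
    have h3 : ∀ i ∈ Finset.univ.filter (fun i => o i ≠ false),
        A k i * A i k + A i k * A k i = A k k - A i i := by
      intro i hi
      have hi' : o i = true := by
        have := (Finset.mem_filter.mp hi).2
        revert this
        cases o i <;> simp
      exact pair_sum h hA hk' hi'
    rw [Finset.sum_congr rfl h3, Finset.sum_sub_distrib]
    have h4 : ∑ i with o i ≠ false, A i i = 0 := by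
      have := diag_sum h hA true
      simpa only [ne_eq, Bool.not_eq_false] using this
    rw [h4, sub_zero, Finset.sum_const, num, ← Nat.cast_smul_eq_nsmul K]
    congr 3
    ext i
    simp
  rw [Finset.sum_congr rfl h2, ← Finset.smul_sum, diag_sum h hA false, smul_zero]

end Pool.Agent.W2helper98.SG
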